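import Mathlib
import Pool.Agent.TH892.SW.S2
import Pool.Agent.N233.GM.Law

/-! Rough pairs with a fixed sum between consecutive squares, in short intervals of positions. -/

set_option autoImplicit false

namespace Pool.Agent.Run7.h899.FX

open Finset Filter Pool.Agent.N233.GM
open Pool.Agent.W41 (JJ JJ_lt JJ_le JJ_small)

/-- the first number of the pair -/
def aa (N k : ℕ) : ℕ := N ^ 2 + k + 1

/-- the second number of the pair -/
def bb (N k : ℕ) : ℕ := (N + 1) ^ 2 - k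

open Classical in
/-- the positions of the rough pairs -/
noncomputable def II (s : ℕ → ℕ) (N a b : ℕ) : Finset ℕ :=
  (Ioc a b).filter (fun k => k ≠ N ∧ Rough s (aa N k) ∧ Rough s (bb N k))

lemma mod_iff (p n : ℕ) (c : ℤ) : (p : ℤ) ∣ c + ((n % p : ℕ) : ℤ) ↔ (p : ℤ) ∣ c + n := by
  have h := Nat.mod_add_div n p
  have h1 : (n : ℤ) = ((n % p : ℕ) : ℤ) + p * ((n / p : ℕ) : ℤ) := by exact_mod_cast h.symm
  have h2 : c + (n : ℤ) = (c + ((n % p : ℕ) : ℤ)) + p * ((n / p : ℕ) : ℤ) := by linarith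
  rw [h2]
  exact (dvd_add_left (dvd_mul_right _ _)).symm

open Classical in
lemma one_class (p : ℕ) (c : ℤ) : ((range p).filter (fun r : ℕ => (p : ℤ) ∣ c + (r : ℤ))).card ≤ 1 := by
  rw [card_le_one]
  intro x hx y hy
  obtain ⟨h1, h2⟩ := mem_filter.1 hx
  obtain ⟨h3, h4⟩ := mem_filter.1 hy
  rw [mem_range] at h1 h3
  have h5 : (p : ℤ) ∣ (x : ℤ) - y := by
    have := dvd_sub h2 h4
    have e : c + (x : ℤ) - (c + y) = x - y := by ring
    rwa [e] at this
  have h6 : |(x : ℤ) - y| < p := by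
    rw [abs_lt]
    constructor <;> omega
  have h7 := Int.eq_zero_of_abs_lt_dvd h5 h6
  omega

/-- the product over the primes up to `y` -/
lemma prod_low (f : ℕ → ℝ) (h2 : 1 / 2 ≤ f 2) (hf : ∀ p : ℕ, p.Prime → 3 ≤ p → 1 - 2 / (p : ℝ) ≤ f p) :
    ∀ y : ℕ, 2 ≤ y → 1 / ((y : ℝ) * (y - 1)) ≤ ∏ p ∈ (Icc 1 y).filter Nat.Prime, f p := by
  intro y hy
  induction y, hy using Nat.le_induction with
  | base =>
    have e : (Icc 1 2).filter Nat.Prime = {2} := by decide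
    rw [e, prod_singleton]
    norm_num
    linarith
  | succ y hy ih =>
    have hy2 : (2 : ℝ) ≤ y := by exact_mod_cast hy
    have e : Icc 1 (y + 1) = insert (y + 1) (Icc 1 y) := by
      ext x
      simp only [mem_insert, mem_Icc]
      omega
    have hpos : 0 < 1 / ((y : ℝ) * (y - 1)) := by
      apply one_div_pos.2
      nlinarith
    rw [e, filter_insert]
    push_cast
    have e2 : 1 / (((y : ℝ) + 1) * (y + 1 - 1)) = (1 - 2 / ((y : ℝ) + 1)) * (1 / ((y : ℝ) * (y - 1))) := by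
      have h1 : (y : ℝ) - 1 ≠ 0 := by linarith
      have h2 : (y : ℝ) ≠ 0 := by linarith
      have h3 : (y : ℝ) + 1 ≠ 0 := by linarith
      rw [show (y : ℝ) + 1 - 1 = y by ring]
      field_simp
      ring
    have h4 : 0 ≤ 2 / ((y : ℝ) + 1) := by positivity
    have h5 : 2 / ((y : ℝ) + 1) ≤ 1 := by
      rw [div_le_one (by linarith)]
      linarith
    split_ifs with hp
    · rw [prod_insert (by
        intro h
        have := (mem_Icc.1 (mem_filter.1 h).1).2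
        omega), e2]
      have h6 := hf (y + 1) hp (by omega)
      push_cast at h6
      exact mul_le_mul h6 ih hpos.le (by linarith)
    · rw [e2]
      nlinarith

/-- the number of rough pairs in a short interval -/
theorem count (ε : ℝ) (hε : 0 < ε) : ∃ δ : ℝ, 0 < δ ∧ ∀ s : ℕ → ℕ,
    (∀ᶠ n : ℕ in atTop, (s n : ℝ) ≤ (n : ℝ) ^ δ) →
    ∀ᶠ N : ℕ in atTop, ∀ a b : ℕ, b ≤ 2 * N → (N : ℝ) ^ ε ≤ (b : ℝ) - a →
      ((b : ℝ) - a) * (N : ℝ) ^ (-(ε / 2)) ≤ ((II s N a b).card : ℝ) := by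
  classical
  obtain ⟨C0, K0, hC0, hK0, hfl⟩ := Pool.Agent.TH892.SW.fl_set 2
  set M : ℕ := 2 * (C0 * C0) with hM
  set η : ℝ := ε / (4 * (2 * M + 5)) with hη
  have hη0 : 0 < η := by positivity
  refine ⟨η / 3, by positivity, fun s hs => ?_⟩
  obtain ⟨m1, hm1⟩ := eventually_atTop.1 hs
  have t1 : ∀ᶠ N : ℕ in atTop, 3 ≤ (N : ℝ) ^ η :=
    ((tendsto_rpow_atTop hη0).comp tendsto_natCast_atTop_atTop).eventually_ge_atTop _
  have t2 : ∀ᶠ N : ℕ in atTop, (48 * K0 + 96 : ℝ) ≤ (N : ℝ) ^ (ε / 4) :=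
    ((tendsto_rpow_atTop (by positivity)).comp tendsto_natCast_atTop_atTop).eventually_ge_atTop _
  filter_upwards [t1, t2, eventually_ge_atTop (m1 + 5)] with N g1 g2 g3
  intro a b hb hab
  have hN1 : (1 : ℝ) ≤ N := by exact_mod_cast (by omega : 1 ≤ N)
  have hN0 : (0 : ℝ) < N := by linarith
  set y : ℕ := ⌊(N : ℝ) ^ η⌋₊ with hy
  have hy1 : (y : ℝ) ≤ (N : ℝ) ^ η := Nat.floor_le (by positivity)
  have hy3 : 3 ≤ y := Nat.le_floor (by exact_mod_cast g1)
  have hy3' : (3 : ℝ) ≤ y := by exact_mod_cast hy3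
  have habn : a ≤ b := by
    have h0 : (0 : ℝ) < (N : ℝ) ^ ε := Real.rpow_pos_of_pos hN0 _
    have h1 : (a : ℝ) ≤ b := by linarith
    exact_mod_cast h1
  set X : ℕ := b - a with hX
  have hXr : (X : ℝ) = (b : ℝ) - a := by rw [hX, Nat.cast_sub habn]
  set c1 : ℤ := (N : ℤ) ^ 2 + a + 1 with hc1
  set c2 : ℤ := (a : ℤ) - ((N : ℤ) + 1) ^ 2 with hc2
  set R : ℕ → ℕ → Prop := fun p r => (p : ℤ) ∣ c1 + (r : ℤ) ∨ (p : ℤ) ∣ c2 + (r : ℤ) with hR
  set P : Finset ℕ := (Icc 1 y).filter Nat.Prime with hP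
  have hr2 : ∀ p : ℕ, ((range p).filter (fun r => R p r)).card ≤ 2 := by
    intro p
    have e : (range p).filter (fun r => R p r) =
        (range p).filter (fun r : ℕ => (p : ℤ) ∣ c1 + (r : ℤ)) ∪ (range p).filter (fun r : ℕ => (p : ℤ) ∣ c2 + (r : ℤ)) := by
      rw [← filter_or]
    rw [e]
    refine (card_union_le _ _).trans ?_
    have := one_class p c1
    have := one_class p c2
    omega
  have hr1 : ((range 2).filter (fun r => R 2 r)).card ≤ 1 := by
    have e : (range 2).filter (fun r => R 2 r) = (range 2).filter (fun r : ℕ => ((2 : ℕ) : ℤ) ∣ c1 + (r : ℤ)) := by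
      ext r
      simp only [mem_filter, hR, hc1, hc2]
      constructor
      · rintro ⟨h1, h2 | h2⟩
        · exact ⟨h1, h2⟩
        · refine ⟨h1, ?_⟩
          push_cast at h2 ⊢
          have h3 : (2 : ℤ) ∣ (2 * ((N : ℤ) ^ 2 + N + 1)) := dvd_mul_right _ _
          have h4 := dvd_add h2 h3
          have e : (a : ℤ) - ((N : ℤ) + 1) ^ 2 + r + 2 * ((N : ℤ) ^ 2 + N + 1) = (N : ℤ) ^ 2 + a + 1 + r := by ring
          rwa [e] at h4
      · rintro ⟨h1, h2⟩
        exact ⟨h1, Or.inl h2⟩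
    rw [e]
    exact one_class 2 c1
  have key := hfl C0 le_rfl y (by omega) X P R (by
    intro p hp
    obtain ⟨h1, h2⟩ := mem_filter.1 hp
    refine ⟨h2, (mem_Icc.1 h1).2, ?_⟩
    convert hr2 p)
  set V : ℝ := ∏ p ∈ P, (1 - (((range p).filter (fun a => R p a)).card : ℝ) / p) with hV
  have hVlow : 1 / ((y : ℝ) * (y - 1)) ≤ V := by
    refine prod_low _ ?_ ?_ y (by omega)
    · have h1 : (((range 2).filter (fun r => R 2 r)).card : ℝ) ≤ 1 := by exact_mod_cast hr1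
      push_cast
      linarith
    · intro p hp hp3
      have h1 : (((range p).filter (fun r => R p r)).card : ℝ) ≤ 2 := by exact_mod_cast hr2 p
      have hp0 : (0 : ℝ) < p := by exact_mod_cast hp.pos
      have h2 : (((range p).filter (fun r => R p r)).card : ℝ) / p ≤ 2 / p := by gcongr
      linarith
  set F : Finset ℕ := (Icc 1 X).filter (fun n => ∀ p ∈ P, ¬ R p (n % p)) with hF
  have hFc : (1 / 2 : ℝ) * (X * V) - ((JJ y : ℝ) + 2) * ((y : ℝ) ^ (2 * (C0 * C0)) * (K0 * (y : ℝ) ^ (2 * (C0 * C0)))) ≤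
      (F.card : ℝ) := by
    have key' : |(F.card : ℝ) - X * V| ≤ (1 / 2 : ℝ) ^ C0 * (X * V) +
        ((JJ y : ℝ) + 2) * ((y : ℝ) ^ (2 * (C0 * C0)) * (K0 * (y : ℝ) ^ (2 * (C0 * C0)))) := by
      convert key
    have h1 := (abs_le.1 key').1
    have hV0 : 0 ≤ V := by
      refine le_trans ?_ hVlow
      apply one_div_nonneg.2
      nlinarith
    have h2 : (1 / 2 : ℝ) ^ C0 * (X * V) ≤ 1 / 2 * (X * V) := by
      apply mul_le_mul_of_nonneg_right _ (by positivity)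
      calc (1 / 2 : ℝ) ^ C0 ≤ (1 / 2 : ℝ) ^ 1 := pow_le_pow_of_le_one (by norm_num) (by norm_num) hC0
        _ = 1 / 2 := pow_one _
    linarith
  have hJJ : (JJ y : ℝ) ≤ (y : ℝ) ^ 2 := by
    have h1 : JJ y < 2 ^ 2 ^ JJ y := lt_trans Nat.lt_two_pow_self Nat.lt_two_pow_self
    have h2 := JJ_le y (by omega)
    exact_mod_cast (h1.le.trans h2)
  -- the map to the positions
  have hcardF : (F.card : ℝ) ≤ ((II s N a b).card : ℝ) + 1 := by
    have h1 : (F.image (fun n => a + n)).erase N ⊆ II s N a b := by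
      intro k hk
      obtain ⟨hkN, hk⟩ := mem_erase.1 hk
      obtain ⟨n, hn, rfl⟩ := mem_image.1 hk
      obtain ⟨hn1, hn2⟩ := mem_filter.1 hn
      rw [mem_Icc] at hn1
      have hkb : a + n ≤ 2 * N := by omega
      have hbbN : a + n ≤ (N + 1) ^ 2 := by nlinarith
      have hsm : ∀ m : ℕ, N ≤ m → m ≤ (N + 1) ^ 2 → s m ≤ y := by
        intro m hm hm2
        apply Nat.le_floor
        refine (hm1 m (by omega)).trans ?_
        have h5 : (m : ℝ) ≤ (N : ℝ) ^ (3 : ℝ) := by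
          have h6 : (N + 1) ^ 2 ≤ N ^ 3 := by nlinarith [Nat.mul_le_mul (show 5 ≤ N by omega) (le_refl (N ^ 2))]
          have h7 : m ≤ N ^ 3 := hm2.trans h6
          calc (m : ℝ) ≤ ((N ^ 3 : ℕ) : ℝ) := by exact_mod_cast h7
            _ = (N : ℝ) ^ (3 : ℝ) := by
              push_cast
              rw [← Real.rpow_natCast]
              norm_num
        calc (m : ℝ) ^ (η / 3) ≤ ((N : ℝ) ^ (3 : ℝ)) ^ (η / 3) := by gcongr
          _ = (N : ℝ) ^ η := by
            rw [← Real.rpow_mul hN0.le]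
            congr 1
            ring
      have hab' : ∀ q : ℕ, q.Prime → q ≤ y → ¬ (q : ℤ) ∣ c1 + (n : ℤ) ∧ ¬ (q : ℤ) ∣ c2 + (n : ℤ) := by
        intro q hq hqy
        have h5 := hn2 q (mem_filter.2 ⟨mem_Icc.2 ⟨hq.one_lt.le, hqy⟩, hq⟩)
        rw [hR] at h5
        push Not at h5
        rw [mod_iff, mod_iff] at h5
        exact h5
      unfold II
      refine mem_filter.2 ⟨mem_Ioc.2 ⟨by omega, by omega⟩, hkN, ?_, ?_⟩
      · intro q hq hqs hqd
        have h5 : q ≤ y := hqs.trans (hsm _ (by unfold aa; nlinarith) (by unfold aa; nlinarith))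
        refine (hab' q hq h5).1 ?_
        have e : c1 + (n : ℤ) = ((aa N (a + n) : ℕ) : ℤ) := by
          unfold aa
          rw [hc1]
          push_cast
          ring
        rw [e]
        exact_mod_cast hqd
      · intro q hq hqs hqd
        have h5 : q ≤ y := hqs.trans (hsm _ (by
          unfold bb
          have : N + (a + n) ≤ (N + 1) ^ 2 := by nlinarith
          omega) (by unfold bb; omega))
        refine (hab' q hq h5).2 ?_
        have e : c2 + (n : ℤ) = -((bb N (a + n) : ℕ) : ℤ) := by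
          unfold bb
          rw [hc2, Nat.cast_sub hbbN]
          push_cast
          ring
        rw [e, dvd_neg]
        exact_mod_cast hqd
    have h2 : (F.image (fun n => a + n)).card = F.card :=
      card_image_of_injective _ (fun x y h => by simpa using h)
    have h3 := card_le_card h1
    have h4 : (F.image (fun n => a + n)).card ≤ ((F.image (fun n => a + n)).erase N).card + 1 := by
      have := pred_card_le_card_erase (s := F.image (fun n => a + n)) (a := N)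
      omega
    have h5 : F.card ≤ (II s N a b).card + 1 := by omega
    exact_mod_cast h5
  -- the numbers
  have hXN : (N : ℝ) ^ ε ≤ X := by rw [hXr]; exact hab
  have hX0 : (0 : ℝ) ≤ X := Nat.cast_nonneg _
  have hyy : 1 / (y : ℝ) ^ 2 ≤ V := by
    refine le_trans ?_ hVlow
    apply one_div_le_one_div_of_le
    · nlinarith
    · nlinarith
  have hy0 : (0 : ℝ) < y := by linarith
  have herr : ((JJ y : ℝ) + 2) * ((y : ℝ) ^ (2 * (C0 * C0)) * (K0 * (y : ℝ) ^ (2 * (C0 * C0)))) ≤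
      3 * K0 * (y : ℝ) ^ (2 * M + 2) := by
    have h1 : (JJ y : ℝ) + 2 ≤ 3 * (y : ℝ) ^ 2 := by nlinarith
    calc ((JJ y : ℝ) + 2) * ((y : ℝ) ^ (2 * (C0 * C0)) * (K0 * (y : ℝ) ^ (2 * (C0 * C0))))
        ≤ (3 * (y : ℝ) ^ 2) * ((y : ℝ) ^ (2 * (C0 * C0)) * (K0 * (y : ℝ) ^ (2 * (C0 * C0)))) := by gcongr
      _ = 3 * K0 * (y : ℝ) ^ (2 * M + 2) := by
        rw [hM]
        ring
  have hypow : (y : ℝ) ^ (2 * M + 4) ≤ (N : ℝ) ^ (ε / 4) := by
    calc (y : ℝ) ^ (2 * M + 4) ≤ ((N : ℝ) ^ η) ^ (2 * M + 4) := by gcongr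
      _ = (N : ℝ) ^ (η * ((2 * M + 4 : ℕ) : ℝ)) := by rw [Real.rpow_mul hN0.le, Real.rpow_natCast]
      _ ≤ (N : ℝ) ^ (ε / 4) := by
        apply Real.rpow_le_rpow_of_exponent_le hN1
        rw [hη]
        push_cast
        rw [div_mul_eq_mul_div, div_le_div_iff₀ (by positivity) (by norm_num)]
        nlinarith [show (0 : ℝ) ≤ M by positivity]
  have hbig : (48 * K0 + 96 : ℝ) * (y : ℝ) ^ (2 * M + 4) ≤ X := by
    calc (48 * K0 + 96 : ℝ) * (y : ℝ) ^ (2 * M + 4) ≤ (N : ℝ) ^ (ε / 4) * (N : ℝ) ^ (ε / 4) := by gcongr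
      _ = (N : ℝ) ^ (ε / 2) := by
        rw [← Real.rpow_add hN0]
        congr 1
        ring
      _ ≤ (N : ℝ) ^ ε := Real.rpow_le_rpow_of_exponent_le hN1 (by linarith)
      _ ≤ X := hXN
  have hy2 : (1 : ℝ) ≤ (y : ℝ) ^ 2 := by nlinarith
  have hmain : (X : ℝ) / (4 * (y : ℝ) ^ 2) ≤ ((II s N a b).card : ℝ) := by
    have h1 : (X : ℝ) / (y : ℝ) ^ 2 ≤ X * V := by
      rw [div_eq_mul_one_div]
      exact mul_le_mul_of_nonneg_left hyy hX0
    have h2 : 3 * K0 * (y : ℝ) ^ (2 * M + 2) + 1 ≤ (X : ℝ) / (4 * (y : ℝ) ^ 2) := by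
      rw [le_div_iff₀ (by positivity)]
      have h3 : (1 : ℝ) ≤ (y : ℝ) ^ (2 * M + 2) := one_le_pow₀ (by linarith)
      have h4 : (y : ℝ) ^ (2 * M + 4) = (y : ℝ) ^ (2 * M + 2) * (y : ℝ) ^ 2 := by rw [← pow_add]
      rw [h4] at hbig
      have h5 : (0 : ℝ) ≤ K0 := Nat.cast_nonneg _
      nlinarith [mul_le_mul_of_nonneg_right h3 (show (0 : ℝ) ≤ (y : ℝ) ^ 2 by positivity),
        mul_nonneg h5 (show (0 : ℝ) ≤ (y : ℝ) ^ (2 * M + 2) * (y : ℝ) ^ 2 by positivity)]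
    have h3 : (X : ℝ) / (4 * (y : ℝ) ^ 2) = 1 / 4 * (X / (y : ℝ) ^ 2) := by
      field_simp
    linarith
  refine le_trans ?_ hmain
  rw [← hXr, div_eq_mul_inv]
  apply mul_le_mul_of_nonneg_left _ hX0
  rw [Real.rpow_neg hN0.le]
  apply inv_anti₀ (by positivity)
  have h6 : 4 * (y : ℝ) ^ 2 ≤ (48 * K0 + 96 : ℝ) * (y : ℝ) ^ (2 * M + 4) := by
    have h7 : (y : ℝ) ^ 2 ≤ (y : ℝ) ^ (2 * M + 4) := pow_le_pow_right₀ (by linarith) (by omega)
    have h5 : (0 : ℝ) ≤ K0 := Nat.cast_nonneg _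
    nlinarith [mul_nonneg h5 (show (0 : ℝ) ≤ (y : ℝ) ^ (2 * M + 4) by positivity)]
  refine h6.trans ?_
  calc (48 * K0 + 96 : ℝ) * (y : ℝ) ^ (2 * M + 4) ≤ (N : ℝ) ^ (ε / 4) * (N : ℝ) ^ (ε / 4) := by gcongr
    _ = (N : ℝ) ^ (ε / 2) := by
      rw [← Real.rpow_add hN0]
      congr 1
      ring

end Pool.Agent.Run7.h899.FX
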