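import Mathlib
import Pool.Agent.Run7.h899.FX.Cnt

/-! The law of large numbers for pairs with a fixed sum between consecutive squares. -/

set_option autoImplicit false
set_option linter.unusedSectionVars false

namespace Pool.Agent.Run7.h899.FX

open Finset Filter Asymptotics MeasureTheory Pool.Agent.N233.GM
open Pool.Agent.R528.RM
open scoped Topology

/-- the sum over all positions and over the positions of the rough pairs -/
lemma split (s : ℕ → ℕ) (N a b : ℕ) (g : ℕ → ℝ)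
    (h0 : ∀ k ∈ Ioc a b, 0 ≤ g (aa N k) * g (bb N k) ∧ g (aa N k) * g (bb N k) ≤ 1)
    (hz : ∀ k ∈ Ioc a b, ¬ (Rough s (aa N k) ∧ Rough s (bb N k)) → g (aa N k) * g (bb N k) = 0) :
    0 ≤ ∑ k ∈ Ioc a b, g (aa N k) * g (bb N k) - ∑ k ∈ II s N a b, g (aa N k) * g (bb N k) ∧
    ∑ k ∈ Ioc a b, g (aa N k) * g (bb N k) - ∑ k ∈ II s N a b, g (aa N k) * g (bb N k) ≤ 1 := by
  classical
  unfold II
  rw [← sum_filter_add_sum_filter_not (Ioc a b) (fun k => k ≠ N ∧ Rough s (aa N k) ∧ Rough s (bb N k))]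
  have e : ∀ x y : ℝ, x + y - x = y := fun x y => by ring
  have hconv : ∑ k ∈ (Ioc a b).filter (fun k => k ≠ N ∧ Rough s (aa N k) ∧ Rough s (bb N k)), g (aa N k) * g (bb N k) +
      ∑ k ∈ (Ioc a b).filter (fun k => ¬ (k ≠ N ∧ Rough s (aa N k) ∧ Rough s (bb N k))), g (aa N k) * g (bb N k) -
      ∑ k ∈ (Ioc a b).filter (fun k => k ≠ N ∧ Rough s (aa N k) ∧ Rough s (bb N k)), g (aa N k) * g (bb N k) =
      ∑ k ∈ (Ioc a b).filter (fun k => ¬ (k ≠ N ∧ Rough s (aa N k) ∧ Rough s (bb N k))), g (aa N k) * g (bb N k) := e _ _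
  constructor
  · refine le_trans ?_ (le_of_eq (by convert hconv.symm))
    exact sum_nonneg fun k hk => (h0 k (mem_filter.1 hk).1).1
  · refine le_trans (le_of_eq (by convert hconv)) ?_
    calc ∑ k ∈ (Ioc a b).filter (fun k => ¬ (k ≠ N ∧ Rough s (aa N k) ∧ Rough s (bb N k))), g (aa N k) * g (bb N k)
        ≤ ∑ k ∈ (Ioc a b).filter (fun k => ¬ (k ≠ N ∧ Rough s (aa N k) ∧ Rough s (bb N k))),
            (if k = N then (1 : ℝ) else 0) := by
          refine sum_le_sum fun k hk => ?_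
          obtain ⟨h1, h2⟩ := mem_filter.1 hk
          split_ifs with h3
          · exact (h0 k h1).2
          · exact (hz k h1 (fun h => h2 ⟨h3, h⟩)).le
      _ ≤ 1 := by
          rw [sum_ite_eq']
          split_ifs
          · exact le_rfl
          · exact zero_le_one

section

variable {Ω : Type} {m0 : MeasurableSpace Ω} {μ : Measure Ω} [IsProbabilityMeasure μ]
  {ℱ : Filtration ℕ m0} {A : ℕ → Set Ω}

/-- the law for all positions in short intervals -/
theorem law (hA : ∀ n, MeasurableSet[ℱ n] (A n)) (s : ℕ → ℕ)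
    (hprof : ∀ᵐ ω ∂μ, ∀ ε : ℝ, 0 < ε → ∀ᶠ n : ℕ in atTop,
      |dens μ ℱ A n ω - rho1 s (n + 1)| ≤ ε * rho1 s (n + 1)) :
    ∀ᵐ ω ∂μ, ∀ ε : ℝ, 0 < ε → ∀ᶠ N : ℕ in atTop, ∀ a b : ℕ, b ≤ 2 * N →
      |∑ k ∈ II s N a b, In A (aa N k) ω * In A (bb N k) ω -
        ∑ k ∈ II s N a b, rho1 s (aa N k) * rho1 s (bb N k)| ≤
      2 * (2 : ℕ) * (2 : ℕ) * √(2 * ((3 : ℕ) + 2) * Real.log N * (II s N a b).card) +
        ε * ∑ k ∈ II s N a b, rho1 s (aa N k) * rho1 s (bb N k) := by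
  classical
  have hne : ∀ N a b k : ℕ, k ∈ II s N a b → b ≤ 2 * N → aa N k ≠ bb N k := by
    intro N a b k hk hb
    obtain ⟨h1, h2, -⟩ := mem_filter.1 hk
    rw [mem_Ioc] at h1
    have h3 : k ≤ (N + 1) ^ 2 := by nlinarith
    unfold aa bb
    have e : (N + 1) ^ 2 = N ^ 2 + 2 * N + 1 := by ring
    omega
  have h := Pool.Agent.R960.Fam.fam_law (μ := μ) (ℱ := ℱ) (A := A) hA (ρ := rho1 s)
    (rho1_bounds s) hprof 2 2 3 (by norm_num)
    (fun N : ℕ => ({N} : Finset ℕ) ×ˢ (range (2 * N + 1) ×ˢ range (2 * N + 1)))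
    (by
      filter_upwards [eventually_ge_atTop 5] with N hN
      rw [card_product, card_product, card_singleton, card_range, one_mul]
      have h1 : 5 * N ^ 2 ≤ N ^ 3 := by
        have := Nat.mul_le_mul_right (N ^ 2) hN
        calc 5 * N ^ 2 ≤ N * N ^ 2 := this
          _ = N ^ 3 := by ring
      nlinarith)
    (fun x : ℕ × ℕ × ℕ => II s x.1 x.2.1 x.2.2) (fun x k => {aa x.1 k, bb x.1 k}) (fun N => N)
    tendsto_id
    (by
      filter_upwards with N x hx k hk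
      obtain ⟨N', a, b⟩ := x
      rw [mem_product, mem_product, mem_singleton, mem_range, mem_range] at hx
      obtain ⟨hx1, hx2, hx3⟩ := hx
      simp only at hx1 hx2 hx3 hk ⊢
      subst hx1
      have hb : b ≤ 2 * N' := by omega
      refine ⟨card_pair (hne N' a b k hk hb), ?_⟩
      obtain ⟨h1, h2, -⟩ := mem_filter.1 hk
      rw [mem_Ioc] at h1
      intro m hm
      rw [mem_insert, mem_singleton] at hm
      have e : (N' + 1) ^ 2 = N' ^ 2 + 2 * N' + 1 := by ring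
      have e2 : N' ≤ N' ^ 2 := by nlinarith [Nat.zero_le N', Nat.le_self_pow (show (2 : ℕ) ≠ 0 by norm_num) N']
      rcases hm with rfl | rfl
      · unfold aa
        omega
      · unfold bb
        omega)
    (by
      filter_upwards with N x hx m
      obtain ⟨N', a, b⟩ := x
      rw [mem_product, mem_product, mem_singleton, mem_range, mem_range] at hx
      obtain ⟨hx1, hx2, hx3⟩ := hx
      simp only at hx1 hx2 hx3 ⊢
      subst hx1
      have h1 : {i | i ∈ II s N' a b ∧ m ∈ ({aa N' i, bb N' i} : Finset ℕ)} ⊆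
          (({m - N' ^ 2 - 1, (N' + 1) ^ 2 - m} : Finset ℕ) : Set ℕ) := by
        rintro i ⟨hi, hm⟩
        obtain ⟨h1, h2, -⟩ := mem_filter.1 hi
        rw [mem_Ioc] at h1
        rw [mem_insert, mem_singleton] at hm
        have h3 : i ≤ (N' + 1) ^ 2 := by nlinarith
        rw [mem_coe, mem_insert, mem_singleton]
        unfold aa bb at hm
        omega
      refine (Set.ncard_le_ncard h1 (finite_toSet _)).trans ?_
      rw [Set.ncard_coe_finset]
      exact card_le_two)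
  filter_upwards [h] with ω hω ε hε
  filter_upwards [hω ε hε] with N h1 a b hb
  by_cases ha : a ≤ 2 * N
  · have ha' : a ∈ range (2 * N + 1) := mem_range.2 (by omega)
    have hb' : b ∈ range (2 * N + 1) := mem_range.2 (by omega)
    have h7 := h1 (N, a, b) (mem_product.2 ⟨mem_singleton_self _, mem_product.2 ⟨ha', hb'⟩⟩)
    simp only at h7
    have h8 : ∀ g : ℕ → ℝ, ∑ k ∈ II s N a b, ∏ m ∈ ({aa N k, bb N k} : Finset ℕ), g m =
        ∑ k ∈ II s N a b, g (aa N k) * g (bb N k) := fun g =>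
      sum_congr rfl fun k hk => prod_pair (hne N a b k hk hb)
    rw [h8 (fun m => In A m ω), h8 (rho1 s)] at h7
    exact h7
  · have e : II s N a b = ∅ := by
      unfold II
      rw [Ioc_eq_empty (by omega), filter_empty]
    rw [e]
    simp

end

/-- the expected number is large -/
lemma low (s : ℕ → ℕ) : ∀ᶠ N : ℕ in atTop, ∀ a b : ℕ, b ≤ 2 * N →
    ((II s N a b).card : ℝ) / (9 * Real.log N ^ 2) ≤ ∑ k ∈ II s N a b, rho1 s (aa N k) * rho1 s (bb N k) := by
  classical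
  filter_upwards [eventually_ge_atTop 5] with N hN a b hb
  have hNr : (5 : ℝ) ≤ N := by exact_mod_cast hN
  have hN0 : (0 : ℝ) < N := by linarith
  have hL1 : 1 ≤ Real.log (N : ℝ) := by
    rw [Real.le_log_iff_exp_le hN0]
    have := Real.exp_one_lt_d9
    linarith
  have hv : ∀ m : ℕ, N ≤ m → m ≤ (N + 1) ^ 2 → Rough s m → 1 / (3 * Real.log N) ≤ rho1 s m := by
    intro m h1 h2 h3
    have h4 : Real.log (m : ℝ) ≤ 3 * Real.log N := by
      have h5 : (N + 1) ^ 2 ≤ N ^ 3 := by nlinarith [Nat.mul_le_mul hN (le_refl (N ^ 2))]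
      have h6 : (m : ℝ) ≤ (N : ℝ) ^ 3 := by exact_mod_cast h2.trans h5
      have h7 : (0 : ℝ) < m := by exact_mod_cast (by omega : 0 < m)
      calc Real.log (m : ℝ) ≤ Real.log ((N : ℝ) ^ 3) := Real.log_le_log h7 h6
        _ = 3 * Real.log N := by rw [Real.log_pow]; norm_num
    have h8 : (1 : ℝ) ≤ Real.log m := hL1.trans (Real.log_le_log hN0 (by exact_mod_cast h1))
    unfold rho1
    rw [if_pos h3]
    apply le_min
    · rw [div_le_one (by linarith)]
      linarith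
    · have := W_ge (s m)
      gcongr
  calc ((II s N a b).card : ℝ) / (9 * Real.log N ^ 2)
      = ∑ _k ∈ II s N a b, (1 / (3 * Real.log N)) * (1 / (3 * Real.log N)) := by
        rw [sum_const, nsmul_eq_mul]
        field_simp
        norm_num
    _ ≤ _ := by
      refine sum_le_sum fun k hk => ?_
      unfold II at hk
      obtain ⟨h1, h2, h3, h4⟩ := mem_filter.1 hk
      rw [mem_Ioc] at h1
      have e : (N + 1) ^ 2 = N ^ 2 + 2 * N + 1 := by ring
      have e2 : N ≤ N ^ 2 := Nat.le_self_pow (by norm_num) N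
      have g1 := hv (aa N k) (by unfold aa; omega) (by unfold aa; omega) h3
      have g2 := hv (bb N k) (by unfold bb; omega) (by unfold bb; omega) h4
      have g3 : 0 ≤ 1 / (3 * Real.log (N : ℝ)) := by positivity
      exact mul_le_mul g1 g2 g3 (g3.trans g1)

/-- the error is small: `√(log N * T)` against `T / log ^ 2 N` for `T ≥ N ^ (ε / 2)` -/
lemma err (ε δ : ℝ) (hε : 0 < ε) (hδ : 0 < δ) : ∀ᶠ N : ℕ in atTop, ∀ T : ℝ, (N : ℝ) ^ (ε / 2) ≤ T →
    2 * (2 : ℕ) * (2 : ℕ) * √(2 * ((3 : ℕ) + 2) * Real.log N * T) + 1 ≤ δ * (T / (9 * Real.log N ^ 2)) := by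
  have t1 := (isLittleO_log_rpow_rpow_atTop (5 : ℝ) (show (0 : ℝ) < ε / 2 by positivity)).bound
    (show (0 : ℝ) < (δ / 1000) ^ 2 by positivity)
  filter_upwards [tendsto_natCast_atTop_atTop.eventually t1, eventually_ge_atTop 5] with N h1 h2 T hT
  have hNr : (5 : ℝ) ≤ N := by exact_mod_cast h2
  have hN0 : (0 : ℝ) < N := by linarith
  have hL1 : 1 ≤ Real.log (N : ℝ) := by
    rw [Real.le_log_iff_exp_le hN0]
    have := Real.exp_one_lt_d9
    linarith
  set L : ℝ := Real.log (N : ℝ) with hL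
  rw [Real.norm_eq_abs, Real.norm_eq_abs, abs_of_nonneg (Real.rpow_nonneg (by linarith) _),
    abs_of_nonneg (Real.rpow_nonneg hN0.le _)] at h1
  have e5 : L ^ (5 : ℝ) = L ^ (5 : ℕ) := by
    rw [← Real.rpow_natCast]; norm_num
  rw [e5] at h1
  have hT0 : 0 < T := lt_of_lt_of_le (Real.rpow_pos_of_pos hN0 _) hT
  -- L ^ 5 ≤ (δ / 1000) ^ 2 * T
  have h3 : L ^ 5 ≤ (δ / 1000) ^ 2 * T := h1.trans (by gcongr)
  -- √(L * T) ≤ (δ / 1000) * T / L ^ 2
  have h4 : √(L * T) ≤ δ / 1000 * T / L ^ 2 := by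
    apply Real.sqrt_le_iff.2
    refine ⟨by positivity, ?_⟩
    rw [div_pow, le_div_iff₀ (by positivity)]
    calc L * T * (L ^ 2) ^ 2 = L ^ 5 * T := by ring
      _ ≤ (δ / 1000) ^ 2 * T * T := by gcongr
      _ = (δ / 1000 * T) ^ 2 := by ring
  have h5 : √(2 * ((3 : ℕ) + 2) * L * T) ≤ 4 * √(L * T) := by
    apply Real.sqrt_le_iff.2
    refine ⟨by positivity, ?_⟩
    rw [mul_pow, Real.sq_sqrt (by positivity)]
    push_cast
    nlinarith [mul_pos (show (0 : ℝ) < L by linarith) hT0]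
  have h6 : 1 ≤ √(L * T) := by
    -- from L ^ 5 ≥ 1 and the bound for T
    apply Real.one_le_sqrt.2
    have h7 : (1 : ℝ) ≤ (N : ℝ) ^ (ε / 2) := Real.one_le_rpow (by linarith) (by positivity)
    nlinarith
  have h8 : δ / 1000 * T / L ^ 2 * 33 ≤ δ * (T / (9 * L ^ 2)) := by
    have e : δ * (T / (9 * L ^ 2)) = δ * T / L ^ 2 * (1 / 9) := by field_simp
    have e2 : δ / 1000 * T / L ^ 2 * 33 = δ * T / L ^ 2 * (33 / 1000) := by ring
    rw [e, e2]
    apply mul_le_mul_of_nonneg_left (by norm_num) (by positivity)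
  have h9 : 33 * √(L * T) ≤ δ * (T / (9 * L ^ 2)) := by
    refine le_trans ?_ h8
    rw [mul_comm]
    exact mul_le_mul_of_nonneg_right h4 (by norm_num)
  refine le_trans ?_ h9
  have h10 : 2 * ((2 : ℕ) : ℝ) * ((2 : ℕ) : ℝ) * √(2 * (((3 : ℕ) : ℝ) + 2) * L * T) ≤ 32 * √(L * T) := by
    calc 2 * ((2 : ℕ) : ℝ) * ((2 : ℕ) : ℝ) * √(2 * (((3 : ℕ) : ℝ) + 2) * L * T)
        ≤ 2 * ((2 : ℕ) : ℝ) * ((2 : ℕ) : ℝ) * (4 * √(L * T)) := by gcongr
      _ = 32 * √(L * T) := by push_cast; ring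
  linarith

end Pool.Agent.Run7.h899.FX
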